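import Pool.Agent.K1H27.SN.Stm

set_option autoImplicit false

/-! Area integrals of powers of the Cauchy kernel (task 155). -/

namespace Pool.Agent.K1H31.SN

open MeasureTheory Set Metric Filter Topology
open scoped ENNReal NNReal
open Pool.Agent.K1H27.SN (S_AREAG)

theorem area_unit {γ : ℝ} (h2 : γ < 2) :
    ∫⁻ z in ball (0:ℂ) 1, (‖z‖ₑ⁻¹) ^ γ ≠ ⊤ := by
  have h := integrableOn_ball_of_norm_le_rpow (E := ℂ) (F := ℝ) (μ := volume)
    (f := fun z => ‖z‖ ^ (-γ)) (C := 1) (α := γ) (r := 1)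
    (by rw [Complex.finrank_real_complex]; norm_num)
    (by rw [Complex.finrank_real_complex]; exact_mod_cast h2) (Eventually.of_forall fun z => by
      rw [one_mul, Real.norm_eq_abs, abs_of_nonneg (Real.rpow_nonneg (norm_nonneg z) _)])
    ((measurable_norm.pow_const _).aestronglyMeasurable)
  have h2 := h.2
  unfold HasFiniteIntegral at h2
  refine ne_top_of_le_ne_top h2.ne (le_of_eq ?_)
  refine lintegral_congr_ae ?_
  have h0 : ∀ᵐ z : ℂ ∂(volume.restrict (ball (0:ℂ) 1)), z ≠ 0 := by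
    apply ae_restrict_of_ae
    have : (volume : Measure ℂ) {0} = 0 := measure_singleton 0
    exact compl_mem_ae_iff.2 this
  filter_upwards [h0] with z hz
  have hz0 : 0 < ‖z‖ := norm_pos_iff.2 hz
  rw [Real.enorm_eq_ofReal (by positivity), Real.rpow_neg hz0.le, ENNReal.ofReal_inv_of_pos
    (Real.rpow_pos_of_pos hz0 _), ENNReal.inv_rpow, ← ofReal_norm,
    ENNReal.ofReal_rpow_of_pos hz0]

theorem t_AREAG : S_AREAG := by
  intro R γ hγ0 hγ
  obtain ⟨A, hA⟩ : ∃ A : ℝ≥0∞, A = ∫⁻ z in ball (0:ℂ) 1, (‖z‖ₑ⁻¹) ^ γ := ⟨_, rfl⟩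
  have hA' : A ≠ ⊤ := by rw [hA]; exact area_unit hγ
  have hV : (volume : Measure ℂ) (ball (0:ℂ) R) ≠ ⊤ := measure_ball_lt_top.ne
  refine ⟨(A + volume (ball (0:ℂ) R)).toNNReal, fun w => ?_⟩
  rw [ENNReal.coe_toNNReal (ENNReal.add_ne_top.2 ⟨hA', hV⟩)]
  have hb : ∀ z : ℂ, (‖z - w‖ₑ⁻¹) ^ γ ≤
      (ball (0:ℂ) 1).indicator (fun z => (‖z‖ₑ⁻¹) ^ γ) (z - w) + 1 := by
    intro z
    by_cases hz : z - w ∈ ball (0:ℂ) 1
    · rw [indicator_of_mem hz]
      exact le_self_add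
    · rw [indicator_of_notMem hz, zero_add]
      rw [mem_ball_zero_iff, not_lt] at hz
      apply ENNReal.rpow_le_one _ hγ0
      rw [ENNReal.inv_le_one, ← ofReal_norm]
      exact ENNReal.one_le_ofReal.2 hz
  calc ∫⁻ z in ball (0:ℂ) R, (‖z - w‖ₑ⁻¹) ^ γ
      ≤ ∫⁻ z in ball (0:ℂ) R, ((ball (0:ℂ) 1).indicator (fun z => (‖z‖ₑ⁻¹) ^ γ) (z - w) + 1) :=
        lintegral_mono fun z => hb z
    _ = (∫⁻ z in ball (0:ℂ) R, (ball (0:ℂ) 1).indicator (fun z => (‖z‖ₑ⁻¹) ^ γ) (z - w)) +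
          volume (ball (0:ℂ) R) := by
        rw [lintegral_add_right _ measurable_const, setLIntegral_const, one_mul]
    _ ≤ (∫⁻ z : ℂ, (ball (0:ℂ) 1).indicator (fun z => (‖z‖ₑ⁻¹) ^ γ) (z - w)) +
          volume (ball (0:ℂ) R) := by
        exact add_le_add_left (setLIntegral_le_lintegral _ _) _
    _ = A + volume (ball (0:ℂ) R) := by
        rw [lintegral_sub_right_eq_self (fun z : ℂ => (ball (0:ℂ) 1).indicator
          (fun z => (‖z‖ₑ⁻¹) ^ γ) z) w, lintegral_indicator measurableSet_ball, hA]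

end Pool.Agent.K1H31.SN
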