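import Pool.Agent.K1H27.SN.Stm
import Pool.Agent.R276.CP.Rs
import Pool.Agent.R276.CP.Pot
import Pool.Agent.R276.CP.Up
import Pool.Agent.R276.CP.Had

set_option autoImplicit false

/-! Inverses of the matrices `1 - t X` and potentials of the regularized determinants (task 156). -/

namespace Pool.Agent.K1H31.SN

open MeasureTheory Set Metric Filter Topology
open scoped InnerProductSpace ENNReal NNReal
open Pool.Agent.K1H27.SN (S_INVP fd col)

section

variable {n : ℕ}

/-- the standard basis -/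
noncomputable def eb (i : Fin n) : EuclideanSpace ℂ (Fin n) := EuclideanSpace.single i 1

/-- the columns -/
noncomputable def ub (X : Matrix (Fin n) (Fin n) ℂ) (j : Fin n) : EuclideanSpace ℂ (Fin n) :=
  WithLp.toLp 2 (fun i => X i j)

lemma norm_ub (X : Matrix (Fin n) (Fin n) ℂ) (j : Fin n) : ‖ub X j‖ = col X j := by
  rw [EuclideanSpace.norm_eq]
  rfl

lemma inner_eb (i : Fin n) (x : EuclideanSpace ℂ (Fin n)) : ⟪eb i, x⟫_ℂ = x i := by
  unfold eb
  rw [EuclideanSpace.inner_single_left]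
  simp

lemma eb_orth : Orthonormal ℂ (eb : Fin n → EuclideanSpace ℂ (Fin n)) :=
  EuclideanSpace.orthonormal_single

lemma Gm_eq (X : Matrix (Fin n) (Fin n) ℂ) :
    Pool.Agent.R276.CP.Gm (1 : EuclideanSpace ℂ (Fin n) →L[ℂ] EuclideanSpace ℂ (Fin n)) eb (ub X) =
      X := by
  ext i j
  unfold Pool.Agent.R276.CP.Gm
  rw [Matrix.of_apply, inner_eb]
  rfl

/-- the operator of the matrix -/
noncomputable def Kop (X : Matrix (Fin n) (Fin n) ℂ) :
    EuclideanSpace ℂ (Fin n) →L[ℂ] EuclideanSpace ℂ (Fin n) :=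
  ∑ j, (innerSL ℂ (eb j)).smulRight (ub X j)

lemma Kop_apply (X : Matrix (Fin n) (Fin n) ℂ) (x : EuclideanSpace ℂ (Fin n)) :
    Kop X x = ∑ j, ⟪eb j, x⟫_ℂ • ub X j := by
  simp [Kop]

lemma Kop_coord (X : Matrix (Fin n) (Fin n) ℂ) (x : EuclideanSpace ℂ (Fin n)) (i : Fin n) :
    Kop X x i = ∑ j, X i j * x j := by
  rw [Kop_apply]
  simp only [WithLp.ofLp_sum, Finset.sum_apply, inner_eb]
  refine Finset.sum_congr rfl fun j _ => ?_
  show x j * X i j = _
  ring

lemma res0 : resolvent (0 : EuclideanSpace ℂ (Fin n) →L[ℂ] EuclideanSpace ℂ (Fin n)) (1 : ℂ) = 1 := by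
  unfold resolvent
  simp

lemma mem_res0 : (1 : ℂ) ∈ resolventSet ℂ
    (0 : EuclideanSpace ℂ (Fin n) →L[ℂ] EuclideanSpace ℂ (Fin n)) := by
  unfold resolventSet
  simp

end

theorem t_INVP : S_INVP := by
  refine ⟨?_, ?_⟩
  · intro n X t r b c hr1 hr2 hdet hc
    have hfd : fd X t ≠ 0 := mul_ne_zero hdet (Complex.exp_ne_zero _)
    have h := Pool.Agent.R276.CP.Rs.main Pool.Agent.R276.CP.Had.main (EuclideanSpace ℂ (Fin n)) n
      eb (ub X) 0 (Kop X) r t 1 eb_orth hr1 hr2 (Kop_apply X) mem_res0 (by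
        rw [res0, Gm_eq]
        exact hfd)
    rw [res0, Gm_eq, zero_add] at h
    obtain ⟨hmem, hle⟩ := h
    have hle' : ‖resolvent (t • Kop X) (1 : ℂ)‖ * ‖fd X t‖ ≤
        2 * Real.exp (3 * ∑ j, (‖t‖ * col X j) ^ r) := by
      have h1 : ‖(1 : EuclideanSpace ℂ (Fin n) →L[ℂ] EuclideanSpace ℂ (Fin n))‖ ≤ 1 :=
        ContinuousLinearMap.norm_id_le
      have h2 : ∀ j, ‖(1 : EuclideanSpace ℂ (Fin n) →L[ℂ] EuclideanSpace ℂ (Fin n)) (ub X j)‖ =
          col X j := fun j => norm_ub X j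
      simp only [h2] at hle
      have h3 : Pool.Agent.R276.CP.fd X t = fd X t := rfl
      rw [h3] at hle
      refine hle.trans ?_
      have h4 : 0 < Real.exp (3 * ∑ j, (‖t‖ * col X j) ^ r) := Real.exp_pos _
      nlinarith
    -- the vectors
    obtain ⟨c', hc'⟩ : ∃ c' : EuclideanSpace ℂ (Fin n), c' = WithLp.toLp 2 c := ⟨_, rfl⟩
    obtain ⟨b', hb'⟩ : ∃ b' : EuclideanSpace ℂ (Fin n), b' = WithLp.toLp 2 b := ⟨_, rfl⟩
    have e1 : (algebraMap ℂ (EuclideanSpace ℂ (Fin n) →L[ℂ] EuclideanSpace ℂ (Fin n)) 1 -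
        t • Kop X) c' = b' := by
      ext i
      rw [map_one, sub_apply, smul_apply,
        one_apply_eq_self]
      show c' i - t * (Kop X c') i = b' i
      rw [Kop_coord, hc', hb']
      show c i - t * ∑ j, X i j * c j = b i
      rw [← hc, Matrix.mulVec, dotProduct]
      simp only [Matrix.sub_apply, Matrix.smul_apply, smul_eq_mul, sub_mul]
      rw [Finset.sum_sub_distrib, Finset.mul_sum]
      congr 1
      · simp [Matrix.one_apply]
      · refine Finset.sum_congr rfl fun j _ => ?_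
        ring
    have e2 : resolvent (t • Kop X) (1 : ℂ) b' = c' := by
      rw [← e1]
      have h5 : resolvent (t • Kop X) (1 : ℂ) *
          (algebraMap ℂ (EuclideanSpace ℂ (Fin n) →L[ℂ] EuclideanSpace ℂ (Fin n)) 1 -
            t • Kop X) = 1 := Ring.inverse_mul_cancel _ hmem
      exact DFunLike.congr_fun h5 c'
    have n1 : ‖c'‖ = Real.sqrt (∑ i, ‖c i‖ ^ 2) := by
      rw [EuclideanSpace.norm_eq, hc']
    have n2 : ‖b'‖ = Real.sqrt (∑ i, ‖b i‖ ^ 2) := by
      rw [EuclideanSpace.norm_eq, hb']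
    rw [← n1, ← n2, ← e2]
    calc ‖resolvent (t • Kop X) (1 : ℂ) b'‖ * ‖fd X t‖
        ≤ (‖resolvent (t • Kop X) (1 : ℂ)‖ * ‖b'‖) * ‖fd X t‖ := by
          gcongr
          exact ContinuousLinearMap.le_opNorm _ _
      _ = ‖b'‖ * (‖resolvent (t • Kop X) (1 : ℂ)‖ * ‖fd X t‖) := by ring
      _ ≤ _ := by gcongr
  · intro m hm R
    obtain ⟨R', hR'⟩ : ∃ R' : ℝ, R' = max R 1 := ⟨_, rfl⟩
    have hR1 : 1 ≤ R' := by rw [hR']; exact le_max_right _ _
    have hRR : R ≤ R' := by rw [hR']; exact le_max_left _ _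
    obtain ⟨C0, hC0⟩ := Pool.Agent.R276.CP.Pot.main m hm R' (by linarith)
    refine ⟨C0 * Real.toNNReal (3 * (6 * R') ^ 2 + 1), fun n X r A hr1 hr2 hA => ?_⟩
    have hcol : ∀ j, 0 ≤ col X j := fun j => Real.sqrt_nonneg _
    have hS0 : 0 ≤ ∑ j, col X j ^ r := Finset.sum_nonneg fun j _ => Real.rpow_nonneg (hcol j) _
    have hA0 : 0 ≤ A := hS0.trans hA
    have hev : ∀ κ : ℂ, X.charpolyRev.eval κ * Complex.exp (κ * X.trace) = fd X κ := by
      intro κ
      have h0 : X.charpolyRev.eval κ = (1 - κ • X).det := by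
        rw [Matrix.charpolyRev, ← Polynomial.coe_evalRingHom, RingHom.map_det]
        congr 1
        ext i j
        rcases eq_or_ne i j with hij | hij
        · simp [hij]
          ring
        · simp [hij]
          ring
      rw [h0]
      rfl
    have h1 := hC0 X.charpolyRev X.trace (3 * (6 * R') ^ 2 * A)
      Matrix.eval_charpolyRev (by positivity) (by
        intro κ hκ
        rw [hev]
        have h2 := Pool.Agent.R276.CP.Up.main Pool.Agent.R276.CP.Had.main
          (EuclideanSpace ℂ (Fin n)) n eb (ub X) 1 r κ eb_orth hr1 hr2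
        rw [Gm_eq] at h2
        refine le_trans h2 (Real.exp_le_exp.2 ?_)
        have h3 : ∀ j, ‖(1 : EuclideanSpace ℂ (Fin n) →L[ℂ] EuclideanSpace ℂ (Fin n)) (ub X j)‖ =
            col X j := fun j => norm_ub X j
        simp only [h3]
        have h4 : ∑ j, (‖κ‖ * col X j) ^ r ≤ (6 * R') ^ 2 * A := by
          calc ∑ j, (‖κ‖ * col X j) ^ r ≤ ∑ j, (6 * R') ^ 2 * col X j ^ r := by
                refine Finset.sum_le_sum fun j _ => ?_
                rw [Real.mul_rpow (norm_nonneg _) (hcol j)]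
                refine mul_le_mul_of_nonneg_right ?_ (Real.rpow_nonneg (hcol j) _)
                calc ‖κ‖ ^ r ≤ (6 * R') ^ r :=
                      Real.rpow_le_rpow (norm_nonneg _) hκ (by linarith)
                  _ ≤ (6 * R') ^ (2 : ℝ) :=
                      Real.rpow_le_rpow_of_exponent_le (by linarith) hr2
                  _ = (6 * R') ^ 2 := by norm_cast
            _ = (6 * R') ^ 2 * ∑ j, col X j ^ r := by rw [Finset.mul_sum]
            _ ≤ _ := by gcongr
        nlinarith)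
    simp only [hev] at h1
    calc ∫⁻ t in ball (0:ℂ) R, Pool.Agent.Y283.NK.lm ‖fd X t‖ ∂m
        ≤ ∫⁻ t in ball (0:ℂ) R', Pool.Agent.Y283.NK.lm ‖fd X t‖ ∂m :=
          lintegral_mono_set (ball_subset_ball hRR)
      _ ≤ C0 * ENNReal.ofReal (3 * (6 * R') ^ 2 * A + 1) := h1
      _ ≤ C0 * (ENNReal.ofReal (3 * (6 * R') ^ 2 + 1) * ENNReal.ofReal (A + 1)) := by
          gcongr
          rw [← ENNReal.ofReal_mul (by positivity)]
          apply ENNReal.ofReal_le_ofReal
          nlinarith [sq_nonneg (6 * R')]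
      _ = _ := by
          rw [ENNReal.coe_mul, mul_assoc]
          rfl

end Pool.Agent.K1H31.SN
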