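import Pool.Agent.K1H27.SN.Stm

set_option autoImplicit false

/-! The inequality of Cordes / Araki-Lieb-Thirring type for the weight `w` (task 154). -/

namespace Pool.Agent.K1H31.SN

open MeasureTheory Set Metric Filter Topology
open scoped InnerProductSpace ENNReal NNReal ComplexConjugate
open Pool.Agent.K1H27.SN (Bess S_CORD)

section abs

variable {F : Type} [NormedAddCommGroup F] [InnerProductSpace ℂ F] [CompleteSpace F]

/-- synthesis operator -/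
noncomputable def Gop {n : ℕ} (v : Fin n → F) : EuclideanSpace ℂ (Fin n) →L[ℂ] F :=
  ∑ i, (EuclideanSpace.proj i : EuclideanSpace ℂ (Fin n) →L[ℂ] ℂ).smulRight (v i)

omit [CompleteSpace F] in
lemma Gop_apply {n : ℕ} (v : Fin n → F) (c : EuclideanSpace ℂ (Fin n)) :
    Gop v c = ∑ i, c i • v i := by
  simp [Gop]

lemma adj_apply {n : ℕ} (v : Fin n → F) (g : F) (i : Fin n) :
    (ContinuousLinearMap.adjoint (Gop v) g) i = ⟪v i, g⟫_ℂ := by
  have h : ⟪(EuclideanSpace.single i (1:ℂ)), ContinuousLinearMap.adjoint (Gop v) g⟫_ℂ =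
      ⟪Gop v (EuclideanSpace.single i 1), g⟫_ℂ := ContinuousLinearMap.adjoint_inner_right _ _ _
  have h1 : Gop v (EuclideanSpace.single i 1) = v i := by
    rw [Gop_apply]
    simp [Finset.sum_ite_eq']
  rw [h1, EuclideanSpace.inner_single_left] at h
  simpa using h

lemma exists_max {n : ℕ} (G : EuclideanSpace ℂ (Fin n) →L[ℂ] F) (hG : G ≠ 0) :
    ∃ c : EuclideanSpace ℂ (Fin n), ‖c‖ = 1 ∧
      ContinuousLinearMap.adjoint G (G c) = ((‖G‖ ^ 2 : ℝ) : ℂ) • c := by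
  obtain ⟨x0, hx0⟩ : ∃ x, G x ≠ 0 := by
    by_contra hcon
    push Not at hcon
    exact hG (ContinuousLinearMap.ext hcon)
  have hx00 : x0 ≠ 0 := by
    rintro rfl
    simp at hx0
  have hne : (sphere (0 : EuclideanSpace ℂ (Fin n)) 1).Nonempty := by
    refine ⟨((‖x0‖⁻¹ : ℝ) : ℂ) • x0, ?_⟩
    rw [mem_sphere_zero_iff_norm, norm_smul]
    have : ‖x0‖ ≠ 0 := norm_ne_zero_iff.2 hx00
    simp [this]
  obtain ⟨c, hc, hmax⟩ := (isCompact_sphere (0 : EuclideanSpace ℂ (Fin n)) 1).exists_isMaxOn hne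
    (f := fun x => ‖G x‖) (by fun_prop)
  have hc1 : ‖c‖ = 1 := mem_sphere_zero_iff_norm.1 hc
  have h1 : ‖G‖ ≤ ‖G c‖ := by
    refine G.opNorm_le_bound (norm_nonneg _) fun x => ?_
    by_cases hx : x = 0
    · simp [hx]
    · have hx' : ‖x‖ ≠ 0 := norm_ne_zero_iff.2 hx
      have hxs : ((‖x‖⁻¹ : ℝ) : ℂ) • x ∈ sphere (0 : EuclideanSpace ℂ (Fin n)) 1 := by
        rw [mem_sphere_zero_iff_norm, norm_smul]
        simp [hx']
      have h2 : ‖G (((‖x‖⁻¹ : ℝ) : ℂ) • x)‖ ≤ ‖G c‖ := hmax hxs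
      rw [map_smul, norm_smul] at h2
      have h3 : ‖((‖x‖⁻¹ : ℝ) : ℂ)‖ = ‖x‖⁻¹ := by simp
      rw [h3] at h2
      have h4 : 0 < ‖x‖ := lt_of_le_of_ne (norm_nonneg _) (Ne.symm hx')
      rw [inv_mul_le_iff₀ h4] at h2
      linarith
  have h2 : ‖G c‖ ≤ ‖G‖ := by
    have := G.le_opNorm c
    rwa [hc1, mul_one] at this
  have h3 : ‖G c‖ = ‖G‖ := le_antisymm h2 h1
  refine ⟨c, hc1, ?_⟩
  set lam : ℝ := ‖G‖ ^ 2 with hlam
  have h4 : ‖ContinuousLinearMap.adjoint G (G c)‖ ≤ lam := by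
    have h5 := (ContinuousLinearMap.adjoint G).le_opNorm (G c)
    have h6 : ‖ContinuousLinearMap.adjoint G‖ = ‖G‖ := by
      exact LinearIsometryEquiv.norm_map _ _
    rw [h6, h3] at h5
    rw [hlam, sq]
    exact h5
  have h5 : RCLike.re ⟪ContinuousLinearMap.adjoint G (G c), c⟫_ℂ = lam := by
    rw [ContinuousLinearMap.adjoint_inner_left, inner_self_eq_norm_sq, h3]
  have h6 : ‖ContinuousLinearMap.adjoint G (G c) - (lam : ℂ) • c‖ ^ 2 ≤ 0 := by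
    rw [@norm_sub_sq ℂ, inner_smul_right, norm_smul, hc1]
    have h7 : RCLike.re ((lam : ℂ) * ⟪ContinuousLinearMap.adjoint G (G c), c⟫_ℂ) = lam * lam := by
      have : ((lam : ℝ) : ℂ) = (RCLike.ofReal lam : ℂ) := rfl
      rw [this, RCLike.re_ofReal_mul, h5]
    rw [h7]
    have h8 : ‖(lam : ℂ)‖ = lam := by
      rw [Complex.norm_real, Real.norm_eq_abs, abs_of_nonneg (by positivity)]
    rw [h8]
    have h9 : ‖ContinuousLinearMap.adjoint G (G c)‖ ^ 2 ≤ lam ^ 2 := by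
      gcongr
    nlinarith
  have h7 : ‖ContinuousLinearMap.adjoint G (G c) - (lam : ℂ) • c‖ = 0 := by
    have := sq_nonneg ‖ContinuousLinearMap.adjoint G (G c) - (lam : ℂ) • c‖
    exact pow_eq_zero_iff (n := 2) (by norm_num) |>.1 (le_antisymm h6 this)
  exact sub_eq_zero.1 (norm_eq_zero.1 h7)

/-- **doubling** -/
lemma doubling {n : ℕ} (e u v : Fin n → F) (β : Fin n → ℝ)
    (he : ∀ x : F, ∑ i, ‖⟪e i, x⟫_ℂ‖ ^ 2 ≤ ‖x‖ ^ 2)
    (hu0 : ∀ i, β i = 0 → u i = 0)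
    (huv : ∀ i j, ⟪u i, u j⟫_ℂ * (β j : ℂ) = (β i : ℂ) * ⟪e i, v j⟫_ℂ) :
    ‖Gop u‖ ^ 2 ≤ ‖Gop v‖ := by
  by_cases hG : Gop u = 0
  · rw [hG]
    simp
  obtain ⟨c, hc1, hc⟩ := exists_max (Gop u) hG
  set lam : ℝ := ‖Gop u‖ ^ 2 with hlam
  have hlam0 : 0 < lam := by
    have : 0 < ‖Gop u‖ := norm_pos_iff.2 hG
    positivity
  have key : ∀ i, ∑ j, c j * ⟪u i, u j⟫_ℂ = (lam : ℂ) * c i := by
    intro i
    have h1 := congrArg (fun x : EuclideanSpace ℂ (Fin n) => x i) hc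
    simp only at h1
    rw [adj_apply, Gop_apply, inner_sum] at h1
    simp only [inner_smul_right] at h1
    rw [h1]
    simp
  have hc0 : ∀ i, β i = 0 → c i = 0 := by
    intro i hi
    have h1 := key i
    rw [hu0 i hi] at h1
    simp only [inner_zero_left, mul_zero, Finset.sum_const_zero] at h1
    have h2 : (lam : ℂ) ≠ 0 := by exact_mod_cast hlam0.ne'
    exact (mul_eq_zero.1 h1.symm).resolve_left h2
  let y : EuclideanSpace ℂ (Fin n) := WithLp.toLp 2 (fun i => c i / (β i : ℂ))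
  have hy : ∀ i, y i = c i / (β i : ℂ) := fun i => rfl
  have hcy : ∀ i, c i = (β i : ℂ) * y i := by
    intro i
    rw [hy]
    by_cases hi : β i = 0
    · rw [hc0 i hi, hi]
      simp
    · have : (β i : ℂ) ≠ 0 := by exact_mod_cast hi
      field_simp
  have hyn : y ≠ 0 := by
    intro h0
    have : c = 0 := by
      ext i
      rw [hcy i, h0]
      simp
    rw [this, norm_zero] at hc1
    exact zero_ne_one hc1
  have h1 : ∀ i, ‖(lam : ℂ) * y i‖ ^ 2 ≤ ‖⟪e i, Gop v y⟫_ℂ‖ ^ 2 := by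
    intro i
    by_cases hi : β i = 0
    · rw [hy, hc0 i hi]
      simp only [zero_div, mul_zero, norm_zero]
      rw [zero_pow two_ne_zero]
      positivity
    · have hβ : (β i : ℂ) ≠ 0 := by exact_mod_cast hi
      have h2 : (lam : ℂ) * y i = ⟪e i, Gop v y⟫_ℂ := by
        apply mul_left_cancel₀ hβ
        calc (β i : ℂ) * ((lam : ℂ) * y i) = (lam : ℂ) * c i := by rw [hcy i]; ring
          _ = ∑ j, c j * ⟪u i, u j⟫_ℂ := (key i).symm
          _ = ∑ j, (β i : ℂ) * (y j * ⟪e i, v j⟫_ℂ) := by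
              refine Finset.sum_congr rfl fun j _ => ?_
              rw [hcy j]
              calc (β j : ℂ) * y j * ⟪u i, u j⟫_ℂ = y j * (⟪u i, u j⟫_ℂ * (β j : ℂ)) := by ring
                _ = _ := by rw [huv i j]; ring
          _ = (β i : ℂ) * ⟪e i, Gop v y⟫_ℂ := by
              rw [Gop_apply, inner_sum, Finset.mul_sum]
              simp only [inner_smul_right]
      rw [h2]
  have h2 : lam ^ 2 * ‖y‖ ^ 2 ≤ (‖Gop v‖ * ‖y‖) ^ 2 := by
    calc lam ^ 2 * ‖y‖ ^ 2 = ∑ i, ‖(lam : ℂ) * y i‖ ^ 2 := by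
          rw [EuclideanSpace.norm_sq_eq, Finset.mul_sum]
          refine Finset.sum_congr rfl fun i _ => ?_
          rw [norm_mul, mul_pow, Complex.norm_real, Real.norm_eq_abs, sq_abs]
      _ ≤ ∑ i, ‖⟪e i, Gop v y⟫_ℂ‖ ^ 2 := Finset.sum_le_sum fun i _ => h1 i
      _ ≤ ‖Gop v y‖ ^ 2 := he _
      _ ≤ (‖Gop v‖ * ‖y‖) ^ 2 := by
          gcongr
          exact (Gop v).le_opNorm y
  have hyp : 0 < ‖y‖ := norm_pos_iff.2 hyn
  have h3 : lam * ‖y‖ ≤ ‖Gop v‖ * ‖y‖ := by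
    rw [← mul_pow] at h2
    exact (pow_le_pow_iff_left₀ (by positivity) (by positivity) two_ne_zero).1 h2
  exact le_of_mul_le_mul_right h3 hyp

lemma Gop_norm_sq_le {n : ℕ} (v : Fin n → F) : ‖Gop v‖ ^ 2 ≤ ∑ i, ‖v i‖ ^ 2 := by
  have h0 : 0 ≤ ∑ i, ‖v i‖ ^ 2 := Finset.sum_nonneg fun i _ => sq_nonneg _
  have h1 : ‖Gop v‖ ≤ Real.sqrt (∑ i, ‖v i‖ ^ 2) := by
    refine (Gop v).opNorm_le_bound (Real.sqrt_nonneg _) fun c => ?_
    rw [Gop_apply]
    calc ‖∑ i, c i • v i‖ ≤ ∑ i, ‖v i‖ * ‖c i‖ := by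
          refine (norm_sum_le _ _).trans (Finset.sum_le_sum fun i _ => ?_)
          rw [norm_smul, mul_comm]
      _ ≤ Real.sqrt (∑ i, ‖v i‖ ^ 2) * Real.sqrt (∑ i, ‖c i‖ ^ 2) :=
          Real.sum_mul_le_sqrt_mul_sqrt _ _ _
      _ = _ := by rw [← EuclideanSpace.norm_eq]
  calc ‖Gop v‖ ^ 2 ≤ (Real.sqrt (∑ i, ‖v i‖ ^ 2)) ^ 2 := by gcongr
    _ = _ := Real.sq_sqrt h0

end abs

section meas

variable {S : Type} [MeasurableSpace S] {μ : Measure S}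

lemma ofReal_norm_sq (f : Lp ℂ 2 μ) :
    ENNReal.ofReal (‖f‖ ^ 2) = ∫⁻ s, ‖f s‖ₑ ^ 2 ∂μ := by
  have h1 : ‖f‖ₑ = eLpNorm f 2 μ := Lp.enorm_def f
  have h2 : ENNReal.ofReal (‖f‖ ^ 2) = ‖f‖ₑ ^ 2 := by
    rw [ENNReal.ofReal_pow (norm_nonneg _), ofReal_norm]
  rw [h2, h1]
  have h3 := eLpNorm_nnreal_pow_eq_lintegral (f := f) (μ := μ) (p := 2) (by norm_num)
  simpa using h3

lemma ofReal_norm_sq_toLp {f : S → ℂ} (hf : MemLp f 2 μ) :
    ENNReal.ofReal (‖hf.toLp f‖ ^ 2) = ∫⁻ s, ‖f s‖ₑ ^ 2 ∂μ := by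
  rw [ofReal_norm_sq]
  apply lintegral_congr_ae
  filter_upwards [hf.coeFn_toLp] with s hs
  rw [hs]

lemma inner_toLp {f g : S → ℂ} (hf : MemLp f 2 μ) (hg : MemLp g 2 μ) :
    ⟪hf.toLp f, hg.toLp g⟫_ℂ = ∫ s, conj (f s) * g s ∂μ := by
  rw [L2.inner_def]
  apply integral_congr_ae
  filter_upwards [hf.coeFn_toLp, hg.coeFn_toLp] with s hs hs'
  rw [hs, hs']
  simp [mul_comm]

lemma inner_toLp_right (f : Lp ℂ 2 μ) {g : S → ℂ} (hg : MemLp g 2 μ) :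
    ⟪f, hg.toLp g⟫_ℂ = ∫ s, conj (f s) * g s ∂μ := by
  rw [L2.inner_def]
  apply integral_congr_ae
  filter_upwards [hg.coeFn_toLp] with s hs'
  rw [hs']
  simp [mul_comm]

/-- powers of the weight times the functions are square integrable -/
lemma memLp_pow {e : Lp ℂ 2 μ} {w : S → ℝ} (hw : Measurable w) (hw0 : ∀ s, 0 ≤ w s) {M : ℕ}
    (hM : ∫⁻ s, ‖e s‖ₑ ^ 2 * ENNReal.ofReal (w s ^ (2 * M)) ∂μ ≠ ⊤) {k : ℕ} (hk : k ≤ M) :
    MemLp (fun s => ((w s ^ k : ℝ) : ℂ) * e s) 2 μ := by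
  have hmeas : AEStronglyMeasurable (fun s => ((w s ^ k : ℝ) : ℂ) * e s) μ := by
    refine AEStronglyMeasurable.mul ?_ (Lp.aestronglyMeasurable e)
    exact (Complex.measurable_ofReal.comp (hw.pow_const k)).aestronglyMeasurable
  refine ⟨hmeas, ?_⟩
  have h3 := eLpNorm_nnreal_pow_eq_lintegral (f := fun s => ((w s ^ k : ℝ) : ℂ) * e s) (μ := μ)
    (p := 2) (by norm_num)
  have h4 : eLpNorm (fun s => ((w s ^ k : ℝ) : ℂ) * e s) 2 μ ^ (2 : ℝ) =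
      ∫⁻ s, ‖((w s ^ k : ℝ) : ℂ) * e s‖ₑ ^ (2 : ℝ) ∂μ := by simpa using h3
  have h5 : ∫⁻ s, ‖((w s ^ k : ℝ) : ℂ) * e s‖ₑ ^ (2 : ℝ) ∂μ < ⊤ := by
    have h6 : ∫⁻ s, ‖e s‖ₑ ^ 2 ∂μ < ⊤ := by
      rw [← ofReal_norm_sq]
      exact ENNReal.ofReal_lt_top
    have h7 : ∫⁻ s, ‖((w s ^ k : ℝ) : ℂ) * e s‖ₑ ^ (2 : ℝ) ∂μ ≤
        ∫⁻ s, ‖e s‖ₑ ^ 2 + ‖e s‖ₑ ^ 2 * ENNReal.ofReal (w s ^ (2 * M)) ∂μ := by
      apply lintegral_mono
      intro s
      have h8 : ‖((w s ^ k : ℝ) : ℂ) * e s‖ₑ ^ (2 : ℝ) =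
          ENNReal.ofReal (w s ^ (2 * k)) * ‖e s‖ₑ ^ 2 := by
        rw [enorm_mul, ENNReal.rpow_two, mul_pow]
        congr 1
        rw [← ofReal_norm, Complex.norm_real, Real.norm_eq_abs,
          abs_of_nonneg (pow_nonneg (hw0 s) _), ← ENNReal.ofReal_pow (pow_nonneg (hw0 s) _),
          ← pow_mul, mul_comm k 2]
      simp only [h8]
      have h9 : w s ^ (2 * k) ≤ 1 + w s ^ (2 * M) := by
        rcases le_total (w s) 1 with h | h
        · have a1 : w s ^ (2 * k) ≤ 1 := pow_le_one₀ (hw0 s) h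
          have a2 := pow_nonneg (hw0 s) (2 * M)
          linarith
        · have a1 : w s ^ (2 * k) ≤ w s ^ (2 * M) := pow_le_pow_right₀ h (by omega)
          linarith
      calc ENNReal.ofReal (w s ^ (2 * k)) * ‖e s‖ₑ ^ 2
          ≤ ENNReal.ofReal (1 + w s ^ (2 * M)) * ‖e s‖ₑ ^ 2 := by
            gcongr
        _ = _ := by
            rw [ENNReal.ofReal_add zero_le_one (pow_nonneg (hw0 s) _), ENNReal.ofReal_one]
            ring
    refine h7.trans_lt ?_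
    rw [lintegral_add_left' ((Lp.aestronglyMeasurable e).enorm.pow_const 2)]
    exact ENNReal.add_lt_top.2 ⟨h6, lt_top_iff_ne_top.2 hM⟩
  rw [← h4] at h5
  by_contra hcon
  rw [not_lt, top_le_iff] at hcon
  rw [hcon, ENNReal.top_rpow_of_pos (by norm_num)] at h5
  exact lt_irrefl _ h5

end meas

theorem t_CORD : S_CORD := by
  classical
  intro S _ μ _ e hB b hb n m w hw hw0 hI g hg hg2
  -- the functions, cut off where `b i = 0`
  obtain ⟨e', he'⟩ : ∃ e' : Fin n → Lp ℂ 2 μ, ∀ i, e' i = if b i = 0 then 0 else e i :=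
    ⟨_, fun _ => rfl⟩
  have hB' : ∀ x : Lp ℂ 2 μ, ∑ i, ‖⟪e' i, x⟫_ℂ‖ ^ 2 ≤ ‖x‖ ^ 2 := by
    intro x
    refine le_trans ?_ (hB n x)
    rw [Finset.sum_range fun j => ‖⟪e j, x⟫_ℂ‖ ^ 2]
    refine Finset.sum_le_sum fun i _ => ?_
    rw [he']
    split_ifs with h
    · rw [inner_zero_left, norm_zero, zero_pow two_ne_zero]
      positivity
    · exact le_rfl
  have hfin : ∀ i : Fin n, ∫⁻ s, ‖e' i s‖ₑ ^ 2 * ENNReal.ofReal (w s ^ (2 * 2 ^ m)) ∂μ ≠ ⊤ := by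
    intro i
    have e2 : 2 * 2 ^ m = 2 ^ (m + 1) := by ring
    rw [he', e2]
    split_ifs with h
    · have : ∫⁻ s, ‖(0 : Lp ℂ 2 μ) s‖ₑ ^ 2 * ENNReal.ofReal (w s ^ 2 ^ (m + 1)) ∂μ = 0 := by
        have h0 : ∫⁻ s, ‖(0 : Lp ℂ 2 μ) s‖ₑ ^ 2 * ENNReal.ofReal (w s ^ 2 ^ (m + 1)) ∂μ =
            ∫⁻ _, 0 ∂μ := by
          apply lintegral_congr_ae
          filter_upwards [Lp.coeFn_zero ℂ 2 μ] with s hs
          rw [hs]
          simp
        rw [h0, lintegral_zero]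
      rw [this]
      exact ENNReal.zero_ne_top
    · intro htop
      apply hI
      rw [ENNReal.sum_eq_top]
      refine ⟨i, Finset.mem_range.2 i.2, ?_⟩
      rw [htop]
      apply ENNReal.mul_top
      rw [Ne, ENNReal.ofReal_eq_zero, not_le]
      exact pow_pos (lt_of_le_of_ne (hb _) (Ne.symm h)) _
  have hmem : ∀ (k : ℕ), k ≤ 2 ^ m → ∀ i : Fin n,
      MemLp (fun s => ((w s ^ k : ℝ) : ℂ) * e' i s) 2 μ := fun k hk i =>
    memLp_pow hw hw0 (hfin i) hk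
  obtain ⟨L, hL⟩ : ∃ L : ℕ → Fin n → Lp ℂ 2 μ, ∀ k (hk : k ≤ 2 ^ m) i,
      L k i = (hmem k hk i).toLp _ :=
    ⟨fun k i => if hk : k ≤ 2 ^ m then (hmem k hk i).toLp _ else 0, fun k hk i => by
      simp only [dif_pos hk]⟩
  obtain ⟨v, hv⟩ : ∃ v : ℕ → Fin n → Lp ℂ 2 μ, ∀ k i, v k i = ((b i ^ k : ℝ) : ℂ) • L k i :=
    ⟨_, fun _ _ => rfl⟩
  -- doubling
  have hdouble : ∀ k, 1 ≤ k → 2 * k ≤ 2 ^ m → ‖Gop (v k)‖ ^ 2 ≤ ‖Gop (v (2 * k))‖ := by
    intro k hk1 hk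
    refine doubling e' (v k) (v (2 * k)) (fun i => b i ^ k) hB' ?_ ?_
    · intro i hi
      have hi' : b i ^ k = 0 := hi
      rw [hv, hi']
      simp
    · intro i j
      have h1 : ⟪L k i, L k j⟫_ℂ = ⟪e' i, L (2 * k) j⟫_ℂ := by
        rw [hL k (by omega), hL k (by omega), hL (2 * k) hk, inner_toLp, inner_toLp_right]
        congr 1
        funext s
        simp only [map_mul, Complex.conj_ofReal]
        push_cast
        ring
      rw [hv, hv, hv, inner_smul_left, inner_smul_right, inner_smul_right, h1, Complex.conj_ofReal]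
      push_cast
      ring
  have hchain : ∀ l, l ≤ m → ‖Gop (v 1)‖ ^ (2 ^ l) ≤ ‖Gop (v (2 ^ l))‖ := by
    intro l
    induction l with
    | zero =>
      intro _
      simp
    | succ l ih =>
      intro hl
      have h1 := ih (by omega)
      have h2 := hdouble (2 ^ l) Nat.one_le_two_pow (by
        calc 2 * 2 ^ l = 2 ^ (l + 1) := by ring
          _ ≤ 2 ^ m := Nat.pow_le_pow_right (by norm_num) hl)
      calc ‖Gop (v 1)‖ ^ 2 ^ (l + 1) = (‖Gop (v 1)‖ ^ 2 ^ l) ^ 2 := by rw [← pow_mul, pow_succ]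
        _ ≤ ‖Gop (v (2 ^ l))‖ ^ 2 := by gcongr
        _ ≤ ‖Gop (v (2 * 2 ^ l))‖ := h2
        _ = _ := by rw [pow_succ, mul_comm]
  set I : ℝ≥0∞ := ∑ i ∈ Finset.range n, ENNReal.ofReal (b i ^ 2 ^ (m + 1)) *
    ∫⁻ s, ‖e i s‖ₑ ^ 2 * ENNReal.ofReal (w s ^ 2 ^ (m + 1)) ∂μ with hIdef
  have htop : ENNReal.ofReal (‖Gop (v (2 ^ m))‖ ^ 2) ≤ I := by
    refine (ENNReal.ofReal_le_ofReal (Gop_norm_sq_le _)).trans ?_
    rw [ENNReal.ofReal_sum_of_nonneg (fun i _ => sq_nonneg _), hIdef,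
      Finset.sum_range fun i => ENNReal.ofReal (b i ^ 2 ^ (m + 1)) *
        ∫⁻ s, ‖e i s‖ₑ ^ 2 * ENNReal.ofReal (w s ^ 2 ^ (m + 1)) ∂μ]
    refine Finset.sum_le_sum fun i _ => ?_
    rw [hv, norm_smul, mul_pow, ENNReal.ofReal_mul (sq_nonneg _), hL _ le_rfl,
      ofReal_norm_sq_toLp]
    have h1 : ‖((b i ^ 2 ^ m : ℝ) : ℂ)‖ ^ 2 = b i ^ 2 ^ (m + 1) := by
      rw [Complex.norm_real, Real.norm_eq_abs, sq_abs, ← pow_mul, pow_succ]
    rw [h1]
    by_cases h0 : b i = 0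
    · have : b i ^ 2 ^ (m + 1) = 0 := by
        rw [h0]
        exact zero_pow (by positivity)
      rw [this, ENNReal.ofReal_zero, zero_mul]
      exact zero_le
    · refine mul_le_mul' le_rfl (le_of_eq ?_)
      apply lintegral_congr
      intro s
      rw [he', if_neg h0, enorm_mul, mul_pow, mul_comm]
      congr 1
      rw [← ofReal_norm, Complex.norm_real, Real.norm_eq_abs,
        abs_of_nonneg (pow_nonneg (hw0 s) _), ← ENNReal.ofReal_pow (pow_nonneg (hw0 s) _),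
        ← pow_mul, pow_succ]
  have h1k : 1 ≤ 2 ^ m := Nat.one_le_two_pow
  have hG1 : ENNReal.ofReal (‖Gop (v 1)‖ ^ 2) ≤ I ^ ((1 : ℝ) / 2 ^ m) := by
    have h1 : (ENNReal.ofReal (‖Gop (v 1)‖ ^ 2)) ^ (2 ^ m) ≤ I := by
      rw [← ENNReal.ofReal_pow (sq_nonneg _), ← pow_mul, mul_comm 2, pow_mul]
      refine le_trans (ENNReal.ofReal_le_ofReal ?_) htop
      have := hchain m le_rfl
      gcongr
    have h2 : (ENNReal.ofReal (‖Gop (v 1)‖ ^ 2)) ^ ((2 ^ m : ℕ) : ℝ) ≤ I := by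
      rw [ENNReal.rpow_natCast]
      exact h1
    have h3 : (0 : ℝ) < ((2 ^ m : ℕ) : ℝ) := by positivity
    have h4 := (ENNReal.le_rpow_inv_iff h3).2 h2
    have e3 : ((2 ^ m : ℕ) : ℝ) = 2 ^ m := by push_cast; ring
    rw [e3, ← one_div] at h4
    exact h4
  -- the test function
  have hgL : MemLp g 2 μ := by
    refine ⟨hg.aestronglyMeasurable, ?_⟩
    have h3 := eLpNorm_nnreal_pow_eq_lintegral (f := g) (μ := μ) (p := 2) (by norm_num)
    have h4 : eLpNorm g 2 μ ^ (2 : ℝ) = ∫⁻ s, ‖g s‖ₑ ^ (2 : ℝ) ∂μ := by simpa using h3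
    by_contra hcon
    rw [not_lt, top_le_iff] at hcon
    rw [hcon, ENNReal.top_rpow_of_pos (by norm_num)] at h4
    apply hg2
    rw [h4]
    apply lintegral_congr
    intro s
    rw [ENNReal.rpow_two]
  have hsum : ∑ i ∈ Finset.range n, b i ^ 2 * ‖∫ s, conj (e i s) * (w s * g s) ∂μ‖ ^ 2 =
      ‖ContinuousLinearMap.adjoint (Gop (v 1)) (hgL.toLp g)‖ ^ 2 := by
    rw [EuclideanSpace.norm_sq_eq,
      Finset.sum_range fun i => b i ^ 2 * ‖∫ s, conj (e i s) * (w s * g s) ∂μ‖ ^ 2]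
    refine Finset.sum_congr rfl fun i _ => ?_
    rw [adj_apply, hv, inner_smul_left, norm_mul, mul_pow, hL 1 h1k, inner_toLp]
    have h1 : ‖(starRingEnd ℂ) ((b i ^ 1 : ℝ) : ℂ)‖ ^ 2 = b i ^ 2 := by
      rw [RCLike.norm_conj, Complex.norm_real, Real.norm_eq_abs, sq_abs, pow_one]
    rw [h1]
    by_cases h0 : b i = 0
    · rw [h0]
      simp
    · congr 3
      apply integral_congr_ae
      refine Filter.Eventually.of_forall fun s => ?_
      simp only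
      rw [he', if_neg h0]
      simp only [map_mul, Complex.conj_ofReal, pow_one]
      ring
  rw [hsum]
  have hadj : ‖ContinuousLinearMap.adjoint (Gop (v 1)) (hgL.toLp g)‖ ^ 2 ≤
      ‖Gop (v 1)‖ ^ 2 * ‖hgL.toLp g‖ ^ 2 := by
    rw [← mul_pow]
    gcongr
    have h5 := (ContinuousLinearMap.adjoint (Gop (v 1))).le_opNorm (hgL.toLp g)
    have h6 : ‖ContinuousLinearMap.adjoint (Gop (v 1))‖ = ‖Gop (v 1)‖ :=
      LinearIsometryEquiv.norm_map _ _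
    rwa [h6] at h5
  refine (ENNReal.ofReal_le_ofReal hadj).trans ?_
  rw [ENNReal.ofReal_mul (sq_nonneg _), ofReal_norm_sq_toLp]
  exact mul_le_mul' hG1 le_rfl

end Pool.Agent.K1H31.SN
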